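import Mathlib

namespace Pool.Agent.MP_669787_al

/-- `c` identifies the ring `R` with the skew Laurent series ring `A((x, φ))`: `c r i` is the
coefficient of `x ^ i` in `r`, the coefficient families are exactly those with support bounded
below, addition is coefficientwise, and `(a x ^ i) (b x ^ j) = a φ^i(b) x ^ (i + j)`. -/
def IsSkewLaurentRing {A R : Type} [Ring A] [Ring R] (φ : RingAut A) (c : R → ℤ → A) : Prop :=
  Function.Injective c ∧
    (∀ f : ℤ → A, (∃ r, c r = f) ↔ ∃ n : ℤ, ∀ i < n, f i = 0) ∧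
    (∀ r s i, c (r + s) i = c r i + c s i) ∧
    ∀ r s n, c (r * s) n = ∑ᶠ i : ℤ, c r i * (φ ^ i) (c s (n - i))

end Pool.Agent.MP_669787_al
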