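import Pool.Agent.MP_669787_al.Skew

namespace Pool.Agent.MP_669787_al

open Function PowerSeries

/-- The local coefficient ring at each site. -/
abbrev D : Type := PowerSeries ℚ

/-- Families of power series with a common constant term, almost all of them constant. -/
def coefSub : Subring (ℤ → D) where
  carrier := {a | ∃ q : ℚ, (∀ i, constantCoeff (a i) = q) ∧ {i | a i ≠ C q}.Finite}
  mul_mem' := by
    rintro a b ⟨p, hp, hp'⟩ ⟨q, hq, hq'⟩
    refine ⟨p * q, fun i => by simp [hp, hq], (hp'.union hq').subset fun i hi => ?_⟩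
    by_contra h
    simp only [Set.mem_union, Set.mem_ofPred_eq, not_or, not_not] at h
    exact hi (by simp [h.1, h.2])
  one_mem' := ⟨1, fun i => by simp, by simp⟩
  add_mem' := by
    rintro a b ⟨p, hp, hp'⟩ ⟨q, hq, hq'⟩
    refine ⟨p + q, fun i => by simp [hp, hq], (hp'.union hq').subset fun i hi => ?_⟩
    by_contra h
    simp only [Set.mem_union, Set.mem_ofPred_eq, not_or, not_not] at h
    exact hi (by simp [h.1, h.2])
  zero_mem' := ⟨0, fun i => by simp, by simp⟩
  neg_mem' := by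
    rintro a ⟨p, hp, hp'⟩
    refine ⟨-p, fun i => by simp [hp], hp'.subset fun i hi => ?_⟩
    by_contra h
    simp only [Set.mem_ofPred_eq, not_not] at h
    exact hi (by simp [h])

/-- The coefficient ring. -/
abbrev AA : Type := coefSub

lemma shift_mem (p : ℤ) (a : AA) : (fun i => a.1 (i + p)) ∈ coefSub := by
  obtain ⟨q, hq, hq'⟩ := a.2
  exact ⟨q, fun i => hq _, hq'.preimage (f := fun i => i + p) (add_left_injective p).injOn⟩

/-- The shift by `p`. -/
def sh (p : ℤ) : RingAut AA where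
  toFun a := ⟨fun i => a.1 (i + p), shift_mem p a⟩
  invFun a := ⟨fun i => a.1 (i + -p), shift_mem (-p) a⟩
  left_inv a := Subtype.ext (funext fun i => by simp)
  right_inv a := Subtype.ext (funext fun i => by simp)
  map_mul' _ _ := rfl
  map_add' _ _ := rfl

lemma sh_add (p q : ℤ) : sh (p + q) = sh p * sh q := by
  refine RingEquiv.ext fun a => Subtype.ext (funext fun i => ?_)
  change a.1 (i + (p + q)) = a.1 (i + p + q)
  rw [add_assoc]

lemma sh_zero : sh 0 = 1 := by
  refine RingEquiv.ext fun a => Subtype.ext (funext fun i => ?_)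
  change a.1 (i + 0) = a.1 i
  rw [add_zero]

lemma sh_zpow (p : ℤ) : sh 1 ^ p = sh p := by
  induction p using Int.induction_on with
  | zero => rw [zpow_zero, sh_zero]
  | succ n ih => rw [zpow_add_one, ih, sh_add]
  | pred n ih =>
    rw [zpow_sub_one, ih, mul_inv_eq_iff_eq_mul, ← sh_add]
    congr 1
    ring

lemma sh_zpow_apply (p : ℤ) (a : AA) (i : ℤ) : ((sh 1 ^ p) a).1 i = a.1 (i + p) := by
  rw [sh_zpow]; rfl

/-- The constants. -/
noncomputable def cst : ℚ →+* AA where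
  toFun q := ⟨fun _ => C q, q, fun _ => by simp, by simp⟩
  map_one' := Subtype.ext (funext fun _ => by simp)
  map_mul' p q := Subtype.ext (funext fun _ => by simp)
  map_zero' := Subtype.ext (funext fun _ => by simp)
  map_add' p q := Subtype.ext (funext fun _ => by simp)

lemma cst_apply (q : ℚ) (i : ℤ) : (cst q).1 i = C q := rfl

lemma sh_cst (p : ℤ) (q : ℚ) : (sh 1 ^ p) (cst q) = cst q :=
  Subtype.ext (funext fun i => by rw [sh_zpow_apply]; rfl)

/-- The element `X` placed at the site `0`. -/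
noncomputable def elt : AA :=
  ⟨Pi.single 0 X, 0, fun i => by
    by_cases h : i = 0
    · subst h; simp
    · simp [h], (Set.finite_singleton 0).subset fun i hi => by
    by_contra h
    exact hi (by simp [Pi.single_eq_of_ne (show i ≠ 0 from h)])⟩

lemma elt_not_nilpotent : ¬ IsNilpotent elt := by
  rintro ⟨n, hn⟩
  have h1 : (elt ^ n).1 0 = 0 := by rw [hn]; rfl
  have h2 : (elt ^ n).1 0 = (X : D) ^ n := by simp [elt]
  rw [h2] at h1
  exact pow_ne_zero n X_ne_zero h1

lemma elt_mem_jacobson : elt ∈ Ring.jacobson AA := by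
  rw [← Ideal.jacobson_bot, Ideal.mem_jacobson_bot]
  intro y
  let z : AA := ⟨Function.update 1 0 (X * y.1 0 + 1)⁻¹, 1, fun i => by
    by_cases h : i = 0
    · subst h; simp
    · simp [h], (Set.finite_singleton 0).subset fun i hi => by
    by_contra h
    exact hi (by simp [Function.update_of_ne (show i ≠ 0 from h)])⟩
  refine IsUnit.of_mul_eq_one z (Subtype.ext (funext fun i => ?_))
  by_cases h : i = 0
  · subst h
    simp [elt, z]
  · simp [elt, z, h]

lemma finite_of_dvd (a : AA) (ha : ∀ i, (X : D) ∣ a.1 i) : {i | a.1 i ≠ 0}.Finite := by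
  obtain ⟨q, hq, hq'⟩ := a.2
  have : q = 0 := by rw [← hq 0]; exact X_dvd_iff.mp (ha 0)
  subst this
  simpa using hq'

variable {R : Type} [Ring R] {c : R → ℤ → AA} (h : IsSkewLaurentRing (sh 1) c)
include h

/-- All entries divisible by `X ^ k`. -/
def Dv (c : R → ℤ → AA) (k : ℕ) (r : R) : Prop := ∀ n i, (X : D) ^ k ∣ (c r n).1 i

lemma Dv_mul {k l : ℕ} {r s : R} (hr : Dv c k r) (hs : Dv c l s) : Dv c (k + l) (r * s) := by
  intro n i
  rw [h.2.2.2]
  refine finsum_induction (fun a : AA => (X : D) ^ (k + l) ∣ a.1 i) (by simp)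
    (fun x y hx hy => dvd_add hx hy) fun p => ?_
  change (X : D) ^ (k + l) ∣ (c r p).1 i * ((sh 1 ^ p) (c s (n - p))).1 i
  rw [sh_zpow_apply, pow_add]
  exact mul_dvd_mul (hr _ _) (hs _ _)

omit [Ring R] h in
lemma Dv_zero (r : R) : Dv c 0 r := fun _ _ => by simp

lemma Dv_sub {k : ℕ} {r s : R} (hr : Dv c k r) (hs : Dv c k s) : Dv c k (r - s) := by
  intro n i
  rw [h.c_sub]
  exact dvd_sub (hr n i) (hs n i)

lemma Dv_neg {k : ℕ} {r : R} (hr : Dv c k r) : Dv c k (-r) := by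
  intro n i
  rw [h.c_neg]
  exact (dvd_neg).mpr (hr n i)

lemma Dv_pow {r : R} (hr : Dv c 1 r) (m : ℕ) : Dv c m (r ^ m) := by
  induction m with
  | zero => exact Dv_zero _
  | succ m ih => rw [pow_succ]; exact Dv_mul h ih hr

lemma eq_zero_of_Dv {r : R} (hr : ∀ k, Dv c (k + 1) r) : r = 0 := by
  refine h.1 (funext fun n => Subtype.ext (funext fun i => ?_))
  rw [h.c_zero]
  ext k
  simpa using X_pow_dvd_iff.mp (hr k n i) k (Nat.lt_succ_self k)

lemma exists_of_mul_ne {r s : R} {n i : ℤ} (hne : (c (r * s) n).1 i ≠ 0) :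
    ∃ p, (c r p).1 i ≠ 0 ∧ (c s (n - p)).1 (i + p) ≠ 0 := by
  by_contra hcon
  apply hne
  rw [h.2.2.2]
  refine finsum_induction (fun a : AA => a.1 i = 0) rfl
    (fun x y hx hy => by simp [hx, hy]) fun p => ?_
  change (c r p).1 i * ((sh 1 ^ p) (c s (n - p))).1 i = 0
  rw [sh_zpow_apply]
  by_contra h0
  exact hcon ⟨p, left_ne_zero_of_mul h0, right_ne_zero_of_mul h0⟩

lemma exists_box {r : R} (hr : Dv c 1 r) :
    ∃ B : ℤ, 0 ≤ B ∧ ∀ n i, n < 0 → (c r n).1 i ≠ 0 → i ≤ B ∧ -B ≤ i + n := by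
  obtain ⟨N, hN⟩ := h.bdd r
  have hfin : (⋃ n ∈ Set.Ico N 0, {i | (c r n).1 i ≠ 0}).Finite :=
    (Set.finite_Ico N 0).biUnion fun n _ => finite_of_dvd _ fun i => by simpa using hr n i
  obtain ⟨u, hu⟩ := hfin.bddAbove
  obtain ⟨l, hl⟩ := hfin.bddBelow
  refine ⟨|u| + |l| + |N|, by positivity, fun n i hn hi => ?_⟩
  have hnN : N ≤ n := by
    by_contra hlt
    exact hi (by rw [hN n (not_le.mp hlt)]; rfl)
  have hmem : i ∈ ⋃ n ∈ Set.Ico N 0, {i | (c r n).1 i ≠ 0} :=
    Set.mem_biUnion (show n ∈ Set.Ico N 0 from ⟨hnN, hn⟩) hi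
  have h1 := hu hmem
  have h2 := hl hmem
  have := le_abs_self u
  have := neg_abs_le l
  have := neg_abs_le N
  have := abs_nonneg u
  have := abs_nonneg l
  have := abs_nonneg N
  constructor <;> linarith

lemma supp_pow {r : R} {B : ℤ}
    (hB : ∀ n i, n < 0 → (c r n).1 i ≠ 0 → i ≤ B ∧ -B ≤ i + n) (m : ℕ) :
    ∀ n i, (c (r ^ (m + 1)) n).1 i ≠ 0 →
      (i ≤ B ∧ -B ≤ i + n) ∨ ∃ d, 0 ≤ d ∧ d ≤ n ∧ (c r d).1 i ≠ 0 := by
  induction m with
  | zero =>
    intro n i hi
    rw [zero_add, pow_one] at hi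
    rcases lt_or_ge n 0 with hn | hn
    · exact Or.inl (hB n i hn hi)
    · exact Or.inr ⟨n, hn, le_rfl, hi⟩
  | succ m ih =>
    intro n i hi
    rw [pow_succ] at hi
    obtain ⟨p, hp1, hp2⟩ := exists_of_mul_ne h hi
    rcases lt_or_ge (n - p) 0 with hn | hn
    · have := hB _ _ hn hp2
      rcases ih p i hp1 with h1 | ⟨d, hd0, hd1, -⟩
      · exact Or.inl ⟨h1.1, by linarith [this.2]⟩
      · exact Or.inl ⟨by linarith [this.1], by linarith [this.2]⟩
    · rcases ih p i hp1 with h1 | ⟨d, hd0, hd1, hd2⟩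
      · exact Or.inl ⟨h1.1, by linarith [h1.2]⟩
      · exact Or.inr ⟨d, hd0, by linarith, hd2⟩

lemma exists_left_inverse {r : R} (hr : Dv c 1 r) : ∃ z : R, z * (1 - r) = 1 := by
  obtain ⟨B, hB0, hB⟩ := exists_box h hr
  let e : ℤ → ℤ → D := fun n i =>
    PowerSeries.mk fun k => ∑ m ∈ Finset.range k, coeff k ((c (r ^ (m + 1)) n).1 i)
  have he : ∀ n i, e n i ≠ 0 →
      (i ≤ B ∧ -B ≤ i + n) ∨ ∃ d, 0 ≤ d ∧ d ≤ n ∧ (c r d).1 i ≠ 0 := by
    intro n i hi
    by_contra hcon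
    apply hi
    ext k
    simp only [e, coeff_mk, map_zero]
    refine Finset.sum_eq_zero fun m _ => ?_
    have : (c (r ^ (m + 1)) n).1 i = 0 := by
      by_contra h0
      exact hcon (supp_pow h hB m n i h0)
    simp [this]
  have hmem : ∀ n, e n ∈ coefSub := by
    intro n
    refine ⟨0, fun i => ?_, ?_⟩
    · rw [← coeff_zero_eq_constantCoeff_apply]
      simp [e]
    · have hfin : (⋃ d ∈ Set.Icc 0 n, {i | (c r d).1 i ≠ 0}).Finite :=
        (Set.finite_Icc 0 n).biUnion fun d _ => finite_of_dvd _ fun i => by simpa using hr d i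
      refine ((Set.finite_Icc (-B - n) B).union hfin).subset fun i hi => ?_
      rcases he n i (by simpa using hi) with h1 | ⟨d, hd0, hd1, hd2⟩
      · exact Or.inl ⟨by linarith [h1.2], h1.1⟩
      · exact Or.inr (Set.mem_biUnion (show d ∈ Set.Icc 0 n from ⟨hd0, hd1⟩) hd2)
  obtain ⟨s, hs⟩ := (h.2.1 fun n => ⟨e n, hmem n⟩).mpr ⟨-2 * B, fun n hn => by
    refine Subtype.ext (funext fun i => ?_)
    by_contra h0
    rcases he n i h0 with h1 | ⟨d, hd0, hd1, -⟩
    · linarith [h1.1, h1.2]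
    · linarith⟩
  have happrox : ∀ k, Dv c (k + 1) (s - ∑ m ∈ Finset.range k, r ^ (m + 1)) := by
    intro k n i
    rw [X_pow_dvd_iff]
    intro l hl
    rw [h.c_sub, h.c_sum, hs]
    have h1 : ((⟨e n, hmem n⟩ : AA) - ∑ m ∈ Finset.range k, c (r ^ (m + 1)) n).1 i =
        e n i - ∑ m ∈ Finset.range k, (c (r ^ (m + 1)) n).1 i := by
      simp
    rw [h1, map_sub, map_sum, sub_eq_zero]
    simp only [e, coeff_mk]
    refine Finset.sum_subset (Finset.range_mono (by omega)) fun m _ hm => ?_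
    have := Dv_pow h hr (m + 1) n i
    rw [X_pow_dvd_iff] at this
    exact this l (by simp at hm; omega)
  refine ⟨1 + s, ?_⟩
  rw [← sub_eq_zero]
  refine eq_zero_of_Dv h fun k => ?_
  have key : (1 + s) * (1 - r) - 1 =
      (s - ∑ m ∈ Finset.range k, r ^ (m + 1)) * (1 - r) - r ^ (k + 1) := by
    have h1 := geom_sum_mul_neg r (k + 1)
    rw [Finset.sum_range_succ', pow_zero] at h1
    have h2 : r ^ (k + 1) = 1 - (∑ m ∈ Finset.range k, r ^ (m + 1) + 1) * (1 - r) := by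
      rw [h1]; abel
    rw [h2]
    noncomm_ring
  rw [key]
  exact Dv_sub h (Dv_mul (l := 0) h (happrox k) (Dv_zero _)) (Dv_pow h hr _)

lemma mem_jacobson_of_Dv {r : R} (hr : Dv c 1 r) : r ∈ Ring.jacobson R := by
  rw [← Ideal.jacobson_bot, Ideal.mem_jacobson_iff]
  intro y
  have h1 : Dv c 1 (-(y * r)) := Dv_neg h (by simpa using Dv_mul h (Dv_zero y) hr)
  obtain ⟨z, hz⟩ := exists_left_inverse h h1
  refine ⟨z, ?_⟩
  rw [Ideal.mem_bot, ← hz]
  noncomm_ring

lemma exists_iota : ∃ ι : HahnSeries ℤ ℚ →+* R, ∀ κ n, c (ι κ) n = cst (κ.coeff n) := by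
  have hex : ∀ κ : HahnSeries ℤ ℚ, ∃ r, c r = fun n => cst (κ.coeff n) := by
    intro κ
    obtain ⟨n, hn⟩ := hahn_bdd κ
    exact (h.2.1 _).mpr ⟨n, fun i hi => by simp [hn i hi]⟩
  choose f hf using hex
  refine ⟨⟨⟨⟨f, ?_⟩, ?_⟩, ?_, ?_⟩, fun κ n => congrFun (hf κ) n⟩
  · refine h.1 (funext fun n => ?_)
    rw [hf, h.c_one]
    by_cases hn : n = 0
    · subst hn; simp
    · simp [hn]
  · intro x y
    refine h.1 (funext fun n => ?_)
    change c (f (x * y)) n = c (f x * f y) n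
    rw [h.2.2.2, hf, hf, hf]
    simp only [sh_cst, ← map_mul]
    rw [hahn_coeff_mul]
    exact cst.toAddMonoidHom.map_finsum_of_injective cst.injective _
  · refine h.1 (funext fun n => ?_)
    change c (f 0) n = c 0 n
    rw [hf, h.c_zero]
    simp
  · intro x y
    refine h.1 (funext fun n => ?_)
    change c (f (x + y)) n = c (f x + f y) n
    rw [h.2.2.1, hf, hf, hf]
    simp

lemma exists_surj :
    ∃ g : HahnSeries ℤ ℚ →+* R ⧸ Ring.jacobson R, Surjective g := by
  obtain ⟨ι, hι⟩ := exists_iota h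
  refine ⟨(Ideal.Quotient.mk _).comp ι, fun x => ?_⟩
  obtain ⟨r, rfl⟩ := Ideal.Quotient.mk_surjective x
  obtain ⟨N, hN⟩ := h.bdd r
  have hb : BddBelow (support fun n => constantCoeff ((c r n).1 0)) := by
    refine ⟨N, fun i hi => ?_⟩
    by_contra hlt
    exact hi (by simp [hN i (not_le.mp hlt)])
  refine ⟨HahnSeries.ofSuppBddBelow _ hb, ?_⟩
  rw [RingHom.comp_apply, Ideal.Quotient.eq]
  refine mem_jacobson_of_Dv h fun n i => ?_
  rw [h.c_sub, hι, pow_one, X_dvd_iff]
  obtain ⟨q, hq, -⟩ := (c r n).2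
  change constantCoeff (C (constantCoeff ((c r n).1 0)) - (c r n).1 i) = 0
  simp [hq]

end Pool.Agent.MP_669787_al
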