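import Pool.Agent.Results.MP_669787_al.Semiperfect

/-!
The radical of a semilocal skew Laurent series ring: monomials of negative degree are strongly
`π`-regular, the radical of `A` lies in the radical of `R`, and left ideals of `R` modulo the
series with coefficients in the radical are generated by conjugates of constant idempotents.
-/

namespace Pool.Agent.MP_669787_al.Sp

section general
variable {R : Type} [Ring R]

theorem mem_jac {y : R} (H : ∀ r, ∃ z, z * (1 + r * y) = 1) : y ∈ Ring.jacobson R := by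
  rw [← Ideal.jacobson_bot, Ideal.mem_jacobson_iff]
  intro r
  obtain ⟨z, hz⟩ := H r
  exact ⟨z, by rw [Ideal.mem_bot, sub_eq_zero, ← hz]; noncomm_ring⟩

theorem unit_add {u j : R} (hu : IsUnit u) (hj : j ∈ Ring.jacobson R) : IsUnit (u + j) := by
  obtain ⟨u, rfl⟩ := hu
  have := u.isUnit.mul (unit_one_add ((Ring.jacobson R).mul_mem_left (↑u⁻¹) hj))
  rwa [mul_add, mul_one, Units.mul_inv_cancel_left] at this

theorem semiprime {z : R} (H : ∀ r, z * r * z ∈ Ring.jacobson R) : z ∈ Ring.jacobson R :=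
  mem_jac fun r => by
    obtain ⟨w, hw⟩ := left_inv ((Ring.jacobson R).mul_mem_left (-r) (H r))
    exact ⟨w * (1 - r * z), Eq.trans (by noncomm_ring) hw⟩

theorem unit_of_mk {x : R} (hx : IsUnit (Ideal.Quotient.mk (Ring.jacobson R) x)) : IsUnit x := by
  obtain ⟨u, hu⟩ := hx
  obtain ⟨y, hy⟩ := Ideal.Quotient.mk_surjective u.2
  have b1 := u.3
  have b2 := u.4
  rw [hu, ← hy, ← map_mul, ← map_one (Ideal.Quotient.mk _)] at b1 b2
  have u1 := unit_one_add (Ideal.Quotient.eq.1 b1)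
  have u2 := unit_one_add (Ideal.Quotient.eq.1 b2)
  rw [add_sub_cancel] at u1 u2
  obtain ⟨v, hv⟩ := u2.exists_left_inv
  obtain ⟨w, hw⟩ := u1.exists_right_inv
  rw [← mul_assoc] at hv
  rw [mul_assoc] at hw
  exact ⟨⟨x, _, hw, by rw [← left_inv_eq_right_inv hv hw, hv]⟩, rfl⟩

/-- Euclid's argument in a semilocal ring -/
theorem euclid (hR : IsSemisimpleRing (R ⧸ Ring.jacobson R)) (u : R) (Q : R → Prop) (h1 : Q 1)
    (hs : ∀ w, Q w → Q (w + w * u * w)) : ∃ w, Q w ∧ IsUnit (1 + u * w) := by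
  let m := Ideal.Quotient.mk (Ring.jacobson R)
  obtain ⟨_, ⟨w, hw, rfl⟩, hmin⟩ := (wellFounded_lt (α := Ideal (R ⧸ Ring.jacobson R))).has_min
    ((fun w => Ideal.span {m w}) '' {w | Q w}) ⟨_, 1, h1, rfl⟩
  have le : Ideal.span {m (w + w * u * w)} ≤ Ideal.span {m w} :=
    (Ideal.span_singleton_le_iff_mem _).2 (Ideal.mem_span_singleton'.2
      ⟨m (1 + w * u), by rw [← map_mul, add_mul, one_mul]⟩)
  obtain ⟨r, hr⟩ := Ideal.mem_span_singleton'.1
    (le.eq_of_not_lt (hmin _ ⟨_, hs w hw, rfl⟩) ▸ Ideal.mem_span_singleton_self (m w))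
  have e : (1 - m u * r * m w) * m (1 + u * w) = 1 := by
    simp only [map_add, map_mul, map_one] at hr ⊢
    rw [sub_mul, one_mul, mul_assoc, mul_assoc, mul_add (m w), mul_one, ← mul_assoc (m w), hr,
      add_sub_cancel_right]
  exact ⟨w, hw, unit_of_mk ⟨⟨_, _, mul_eq_one_symm e, e⟩, rfl⟩⟩

theorem regular [IsSemisimpleRing R] (a : R) : ∃ b, a * b * a = a := by
  obtain ⟨ε, hε, e⟩ := IsSemisimpleRing.ideal_eq_span_idempotent (Ideal.span {a})
  obtain ⟨b, hb⟩ := Ideal.mem_span_singleton'.1 (e ▸ Ideal.mem_span_singleton_self ε)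
  obtain ⟨s, hs⟩ := Ideal.mem_span_singleton'.1 (e ▸ Ideal.mem_span_singleton_self a)
  exact ⟨b, by rw [mul_assoc, hb, ← hs, mul_assoc, hε.eq]⟩

end general

section laurent
variable {A R : Type} [Ring A] [Ring R] {φ : RingAut A} {c : R → ℤ → A}
  (h : IsSkewLaurentRing φ c)

/-- the series of order at least `b` -/
def lo (b : ℤ) : AddSubgroup R where
  carrier := {r | ∀ n < b, c r n = 0}
  add_mem' := fun {r s} hr hs n hn => by rw [h.2.2.1, hr n hn, hs n hn, add_zero]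
  zero_mem' := fun n _ => h.c_zero n
  neg_mem' := fun {r} hr n hn => by rw [h.c_neg, hr n hn, neg_zero]

theorem lo_mono {a b : ℤ} {r : R} (hr : r ∈ lo h a) (e : b ≤ a) : r ∈ lo h b :=
  fun n hn => hr n (by omega)

theorem mul_lo {a b d : ℤ} {r s : R} (hr : r ∈ lo h a) (hs : s ∈ lo h b) (e : d ≤ a + b) :
    r * s ∈ lo h d := fun n hn => lo_mul h hr hs n (by omega)

theorem mo_lo (a : A) (n : ℤ) : mo h a n ∈ lo h n := fun i hi => by
  rw [c_mo h, Pi.single_eq_of_ne hi.ne]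

theorem one_lo : (1 : R) ∈ lo h 0 := mo_one h ▸ mo_lo h 1 0

theorem pow_lo {a : ℤ} {r : R} (hr : r ∈ lo h a) : ∀ k : ℕ, r ^ k ∈ lo h (k * a)
  | 0 => by simpa using one_lo h
  | k + 1 => by rw [pow_succ]; exact mul_lo h (pow_lo hr k) hr (by push_cast; linarith)

theorem lo_zero {r : R} (hr : ∀ N : ℕ, r ∈ lo h N) : r = 0 :=
  h.1 (funext fun n => by rw [h.c_zero]; exact hr (n.toNat + 1) n (by omega))

theorem geom {r : R} (hr : r ∈ lo h 1) : IsUnit (1 + r) := by
  have p : ∀ k : ℕ, (-r) ^ k ∈ lo h k := fun k => by simpa using pow_lo h (neg_mem hr) k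
  have p0 : 1 + r ∈ lo h 0 := add_mem (one_lo h) (lo_mono h hr (by omega))
  obtain ⟨z, hz⟩ := (h.2.1 fun n => c (∑ k ∈ Finset.range (n + 1).toNat, (-r) ^ k) n).2
    ⟨0, fun i hi => by rw [show (i + 1).toNat = 0 by omega, Finset.sum_range_zero, h.c_zero]⟩
  have a : ∀ N : ℕ, z - ∑ k ∈ Finset.range N, (-r) ^ k ∈ lo h N := fun N n hn => by
    rw [h.c_sub, congrFun hz, sub_eq_zero, h.c_sum, h.c_sum]
    refine Finset.sum_subset (Finset.range_subset_range.2 (by omega)) fun k _ hk => p k n ?_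
    rw [Finset.mem_range] at hk
    omega
  refine ⟨⟨1 + r, z, sub_eq_zero.1 (lo_zero h fun N => ?_),
    sub_eq_zero.1 (lo_zero h fun N => ?_)⟩, rfl⟩
  · have e := mul_neg_geom_sum (-r) N
    rw [sub_neg_eq_add] at e
    rw [show (1 + r) * z - 1 = (1 + r) * (z - ∑ k ∈ Finset.range N, (-r) ^ k) - (-r) ^ N by
      rw [mul_sub, e]; abel]
    exact sub_mem (mul_lo h p0 (a N) (by omega)) (p N)
  · have e := geom_sum_mul_neg (-r) N
    rw [sub_neg_eq_add] at e
    rw [show z * (1 + r) - 1 = (z - ∑ k ∈ Finset.range N, (-r) ^ k) * (1 + r) - (-r) ^ N by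
      rw [sub_mul, e]; abel]
    exact sub_mem (mul_lo h (a N) p0 (by omega)) (p N)

/-- the radical is closed in the `x`-adic topology -/
theorem closed {y : R} (H : ∀ N, ∃ y' ∈ lo h N, y - y' ∈ Ring.jacobson R) :
    y ∈ Ring.jacobson R := mem_jac fun r => by
  obtain ⟨b, hb⟩ := h.bdd r
  obtain ⟨y', h1, h2⟩ := H (1 - b)
  have := unit_add (geom h (mul_lo h hb h1 (by omega))) ((Ring.jacobson R).mul_mem_left r h2)
  rw [mul_sub, add_assoc, add_sub_cancel] at this
  exact this.exists_left_inv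

theorem io_mo (a : A) (n : ℤ) : io h a * mo h 1 n = mo h a n := by
  change mo h a 0 * _ = _
  rw [mo_mul_mo]
  simp

theorem sandwich {u v r : R} (H : ∀ n, u * mo h (c r n) n * v ∈ Ring.jacobson R) :
    u * r * v ∈ Ring.jacobson R := closed h fun N => by
  obtain ⟨a, ha⟩ := h.bdd u
  obtain ⟨b, hb⟩ := h.bdd v
  obtain ⟨d, hd⟩ := h.bdd r
  have t := expand h one_pos (max (-d) (N - a - b)) (r := r) (fun n hn => (hn (one_dvd n)).elim)
    fun n hn => hd n (by omega)
  refine ⟨_, mul_lo h (mul_lo h ha t le_rfl) hb (by omega), ?_⟩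
  rw [mul_sub, sub_mul, sub_sub_cancel, Finset.mul_sum, Finset.sum_mul]
  exact Ideal.sum_mem _ fun k _ => by rw [io_mo]; exact H _

theorem c_mul_mo (r : R) (a : A) (n k : ℤ) :
    c (r * mo h a n) k = c r (k - n) * (φ ^ (k - n)) a := by
  rw [h.2.2.2, finsum_eq_single _ (k - n) fun i hi => by
    rw [c_mo h, Pi.single_eq_of_ne (by omega), map_zero, mul_zero], c_mo h, sub_sub_cancel,
    Pi.single_eq_same]

/-- monomials of negative degree are strongly `π`-regular -/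
theorem pireg (hR : IsSemisimpleRing (R ⧸ Ring.jacobson R)) (a : A) {n : ℤ} (hn : 0 < n) :
    ∃ (M s : ℕ) (g : R), Commute (mo h a (-n)) g ∧
      mo h a (-n) ^ M - mo h a (-n) ^ (M + (s + 1)) * g ∈ lo h (1 - M * n) := by
  obtain ⟨u, hu⟩ : ∃ u, u = mo h a (-n) := ⟨_, rfl⟩
  rw [← hu]
  have lu : u ∈ lo h (-n) := hu ▸ mo_lo h a _
  have lp := pow_lo h lu
  obtain ⟨w, ⟨cw, s, hs⟩, p, hp⟩ := euclid hR u
    (fun w => Commute u w ∧ ∃ s : ℕ, w - u ^ s ∈ lo h (1 - s * n))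
    ⟨Commute.one_right u, 0, by rw [pow_zero, sub_self]; exact zero_mem _⟩ (by
      rintro w ⟨cw, s, hs⟩
      have lw : w ∈ lo h (s * -n) := by
        have := add_mem (lo_mono h hs (b := s * -n) (by linarith)) (lp s)
        rwa [sub_add_cancel] at this
      refine ⟨cw.add_right ((cw.mul_right (Commute.refl u)).mul_right cw), s + 1 + s, ?_⟩
      rw [show w + w * u * w - u ^ (s + 1 + s) =
        w + (w - u ^ s) * u * w + u ^ (s + 1) * (w - u ^ s) by
          rw [pow_add, pow_succ]; noncomm_ring]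
      refine add_mem (add_mem (lo_mono h lw ?_) (mul_lo h (mul_lo h hs lu le_rfl) lw ?_))
        (mul_lo h (lp _) hs ?_)
      · push_cast; nlinarith
      · push_cast; linarith
      · push_cast; linarith)
  have cp : Commute u p := hp ▸ (Commute.one_right u).add_right ((Commute.refl u).mul_right cw)
  have l1 : (p : R) - u ^ (s + 1) ∈ lo h (1 - (s + 1) * n) := by
    rw [hp, show 1 + u * w - u ^ (s + 1) = 1 + u * (w - u ^ s) by rw [pow_succ']; noncomm_ring]
    exact add_mem (lo_mono h (one_lo h) (by nlinarith)) (mul_lo h lu hs (by linarith))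
  have e : ∀ M : ℕ, u ^ M - u ^ (M + (s + 1)) * ↑p⁻¹ = (p - u ^ (s + 1)) * (u ^ M * ↑p⁻¹) :=
    fun M => by
    rw [sub_mul, ← mul_assoc, ← (cp.pow_left M).eq, Units.mul_inv_cancel_right, ← mul_assoc,
      ← pow_add, add_comm M]
  obtain ⟨b, hb⟩ := h.bdd (↑p⁻¹ : R)
  have key : ∀ i, min b ((s + 1) * n) ≤ i → i ≤ (s + 1) * n →
      ∃ M : ℕ, u ^ M * ↑p⁻¹ ∈ lo h (i - M * n) := fun i hi => by
    induction i, hi using Int.leInduction with
    | base => exact fun _ => ⟨0, by rw [pow_zero, one_mul]; exact lo_mono h hb (by simp)⟩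
    | succ i _ ih =>
      intro hi
      obtain ⟨M, hM⟩ := ih (by omega)
      refine ⟨M + (s + 1), ?_⟩
      rw [← sub_sub_cancel (u ^ M) (_ * _), e]
      refine sub_mem (lo_mono h (lp M) ?_) (mul_lo h l1 hM ?_) <;> push_cast <;> linarith
  obtain ⟨M, hM⟩ := key _ (min_le_right _ _) le_rfl
  exact ⟨M, s, ↑p⁻¹, cp.units_inv_right, e M ▸ mul_lo h l1 hM (by linarith)⟩

end laurent

section laurent
variable {A R : Type} [Ring A] [Ring R] {φ : RingAut A} {c : R → ℤ → A}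
  (h : IsSkewLaurentRing φ c)

theorem mo_pow (a : A) (n : ℤ) : ∀ k : ℕ, mo h a (-n) ^ k =
    mo h ((List.range k).map fun i : ℕ => (φ ^ (-(i * n))) a).prod (-(k * n))
  | 0 => by simpa using (mo_one h).symm
  | k + 1 => by
    rw [pow_succ, mo_pow a n k, mo_mul_mo, List.range_succ, List.map_append, List.prod_append]
    congr 1
    · simp
    · push_cast; ring

include h in
theorem pireg' (hR : IsSemisimpleRing (R ⧸ Ring.jacobson R)) (a : A) {n : ℤ} (hn : 0 < n) :
    ∃ (M : ℕ) (b b' : A), ((List.range M).map fun i : ℕ => (φ ^ (-(i * n))) a).prod =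
      ((List.range (M + 1)).map fun i : ℕ => (φ ^ (-(i * n))) a).prod * b ∧
      ((List.range M).map fun i : ℕ => (φ ^ (-(i * n))) a).prod =
      b' * (φ ^ n) ((List.range (M + 1)).map fun i : ℕ => (φ ^ (-(i * n))) a).prod := by
  obtain ⟨M, s, g, cg, hM⟩ := pireg h hR a hn
  have t := hM (-(M * n)) (by omega)
  rw [h.c_sub, sub_eq_zero, mo_pow h a n M, c_mo h, Pi.single_eq_same] at t
  have t2 := t
  rw [show M + (s + 1) = M + 1 + s by ring, pow_add, mul_assoc, mo_pow h a n (M + 1),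
    c_mo_mul h] at t
  rw [show M + (s + 1) = s + (M + 1) by ring, (cg.pow_left _).eq, pow_add, ← mul_assoc,
    mo_pow h a n (M + 1), c_mul_mo h,
    show -(M * n) - -(((M + 1 : ℕ) : ℤ) * n) = n by push_cast; ring] at t2
  exact ⟨M, _, _, t, t2⟩

include h in
theorem tw_nil (hR : IsSemisimpleRing (R ⧸ Ring.jacobson R)) {a : A} (ha : a ∈ Ring.jacobson A)
    {n : ℤ} (hn : 0 < n) :
    ∃ M : ℕ, ((List.range M).map fun i : ℕ => (φ ^ (-(i * n))) a).prod = 0 := by
  obtain ⟨M, b, -, t, -⟩ := pireg' h hR a hn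
  rw [List.range_succ, List.map_append, List.prod_append, List.map_singleton, List.prod_singleton,
    mul_assoc] at t
  have u := unit_one_add (neg_mem ((Ring.jacobson A).mul_mem_right b (aut_mem (φ ^ (-(M * n))) ha)))
  exact ⟨M, u.mul_left_eq_zero.1 (by rw [mul_add, mul_one, mul_neg, ← t, add_neg_cancel])⟩

theorem mo_zero (n : ℤ) : mo h 0 n = 0 := by simpa using mo_sub h 0 0 n

/-- a Levitzki type argument: the radical of `A` lies in the radical of `R` -/
theorem mo_jac (hR : IsSemisimpleRing (R ⧸ Ring.jacobson R)) {a : A} (ha : a ∈ Ring.jacobson A)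
    (n : ℤ) : mo h a n ∈ Ring.jacobson R := by
  by_contra hn
  let m := Ideal.Quotient.mk (Ring.jacobson R)
  have z : ∀ {r}, m r = 0 ↔ r ∈ Ring.jacobson R := Ideal.Quotient.eq_zero_iff_mem
  let X : Set R := {t | ∃ a ∈ Ring.jacobson A, ∃ n > 0, t = mo h a (-n)}
  obtain ⟨_, ⟨t, ⟨ht, nt⟩, rfl⟩, hmin⟩ :=
    (wellFounded_lt (α := Ideal (R ⧸ Ring.jacobson R))).has_min
    ((fun w => Ideal.span {m w}) '' {w | w ∈ X ∧ m w ≠ 0})
    ⟨_, mo h a (-1), ⟨⟨a, ha, 1, one_pos, rfl⟩, fun e => hn (by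
      have := (Ring.jacobson R).mul_mem_right (mo h 1 (n + 1)) (z.1 e)
      rw [mo_mul_mo] at this
      simpa using this)⟩, rfl⟩
  have X1 : ∀ x ∈ X, ∀ b k, k ≤ 0 → x * mo h b k ∈ X := by
    rintro _ ⟨a, ha, n, hn, rfl⟩ b k hk
    exact ⟨_, (Ring.jacobson A).mul_mem_right ((φ ^ (-n)) b) ha, n - k, by omega, by
      rw [mo_mul_mo]; congr 1; ring⟩
  have X2 : ∀ x ∈ X, ∀ y ∈ X, x * y ∈ X := by
    rintro x hx _ ⟨a, -, n, hn, rfl⟩
    exact X1 x hx a _ (by omega)
  have c1 : ∀ b k, k ≤ 0 → m t * m (mo h b k) * m t = 0 := fun b k hk => by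
    by_contra ne
    have xs := X1 t ht b k hk
    have all : ∀ j : ℕ, (t * mo h b k) ^ j * t ∈ X ∧ m ((t * mo h b k) ^ j * t) ≠ 0 := by
      intro j
      induction j with
      | zero => rw [pow_zero, one_mul]; exact ⟨ht, nt⟩
      | succ j ih =>
        refine ⟨by rw [pow_succ', mul_assoc]; exact X2 _ xs _ ih.1, fun e => ne ?_⟩
        have le : Ideal.span {m ((t * mo h b k) ^ j * t)} ≤ Ideal.span {m t} :=
          (Ideal.span_singleton_le_iff_mem _).2 (Ideal.mem_span_singleton'.2 ⟨_, (map_mul m _ _).symm⟩)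
        obtain ⟨r, hr⟩ := Ideal.mem_span_singleton'.1
          (le.eq_of_not_lt (hmin _ ⟨_, ih, rfl⟩) ▸ Ideal.mem_span_singleton_self (m t))
        rw [pow_succ, ← mul_assoc, map_mul, map_mul] at e
        have : m t * m (mo h b k) * m t =
            r * (m ((t * mo h b k) ^ j * t) * m (mo h b k) * m t) := by
          rw [← mul_assoc, ← mul_assoc, hr]
        rw [this, e, mul_zero]
    obtain ⟨a', ha', n', hn', e⟩ := xs
    obtain ⟨M, hM⟩ := tw_nil h hR ha' hn'
    exact (all M).2 (by rw [e, mo_pow, hM, mo_zero, zero_mul, map_zero])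
  let W : ℤ → Ideal (R ⧸ Ring.jacobson R) := fun j =>
    { carrier := {s | ∀ b k, k ≤ j → s * m (mo h b k) * m t = 0}
      add_mem' := fun {r s} hr hs b k hk => by rw [add_mul, add_mul, hr b k hk, hs b k hk, add_zero]
      zero_mem' := fun b k _ => by rw [zero_mul, zero_mul]
      smul_mem' := fun r s hs b k hk => by
        rw [smul_eq_mul, mul_assoc r, mul_assoc r, hs b k hk, mul_zero] }
  have sh : ∀ j i s, s ∈ W j → s * m (mo h 1 i) ∈ W (j - i) := fun j i s hs b k hk => by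
    rw [mul_assoc s, ← map_mul, mo_mul_mo]
    exact hs _ _ (by omega)
  obtain ⟨_, ⟨j, rfl⟩, hj⟩ := (wellFounded_lt (α := Ideal (R ⧸ Ring.jacobson R))).has_min
    (Set.range W) ⟨_, 0, rfl⟩
  refine nt (z.2 (semiprime fun r => sandwich h fun k => z.1 ?_))
  have le : W (j + max k 0) ≤ W j := fun s hs b i hi => hs b i (by omega)
  have t1 : m t * m (mo h 1 (-j)) ∈ W j := by simpa using sh 0 (-j) _ c1
  have t2 := sh _ j _ (le.eq_of_not_lt (hj _ ⟨_, rfl⟩) ▸ t1)
  rw [mul_assoc, ← map_mul, mo_mul_mo, map_one, mul_one, neg_add_cancel, mo_one, map_one,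
    mul_one] at t2
  rw [map_mul, map_mul]
  exact t2 _ k (by omega)

theorem rad_le (hj : ∀ a ∈ Ring.jacobson A, io h a ∈ Ring.jacobson R) :
    rad h ≤ Ring.jacobson R := fun r hr => by
  have := sandwich h (u := 1) (v := 1) (r := r) fun n => by
    rw [one_mul, mul_one, ← io_mo]
    exact (Ring.jacobson R).mul_mem_right _ (hj _ (hr n))
  rwa [one_mul, mul_one] at this

theorem io_jac {a : A} (ha : io h a ∈ Ring.jacobson R) : a ∈ Ring.jacobson A :=
  mem_jac fun r => by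
    obtain ⟨z, hz⟩ := left_inv ((Ring.jacobson R).mul_mem_left (io h r) ha)
    have := congrArg (c · 0) hz
    rw [← map_mul, ← map_one (io h), ← map_add] at this
    refine ⟨c z 0, ?_⟩
    change c (z * mo h _ 0) 0 = c (mo h 1 0) 0 at this
    simpa [c_mul_mo h, c_mo h] using this

/-- normalising the lowest coefficient outside the radical -/
theorem lead (L : Ideal R) (hL : rad h ≤ L) {r : R} (hr : r ∈ L) (nr : r ∉ rad h) :
    ∃ n, c r n ∉ Ring.jacobson A ∧ ∃ s ∈ L, s - io h ((φ ^ (-n)) (c r n)) ∈ lo h 1 := by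
  obtain ⟨b, hb⟩ := h.bdd r
  obtain ⟨n, hn, mn⟩ := Int.exists_least_of_bdd (P := fun n => c r n ∉ Ring.jacobson A)
    ⟨b, fun n hn => not_lt.1 fun e => hn (hb n e ▸ zero_mem _)⟩ (not_forall.1 nr)
  refine ⟨n, hn, mo h 1 (-n) * (r - cut h (· < n) r),
    L.mul_mem_left _ (sub_mem hr (hL fun k => ?_)), fun k hk => ?_⟩
  · rw [c_cut h]
    split_ifs with e
    exacts [by_contra fun e' => e.not_ge (mn k e'), zero_mem _]
  · change c (_ - mo h _ 0) k = 0
    rw [h.c_sub, c_mo_mul h, h.c_sub, c_cut h, c_mo h, one_mul]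
    by_cases e : k = 0
    · simp [e]
    · rw [if_pos (by omega), Pi.single_eq_of_ne e]
      simp

theorem le_rad (hA : IsSemisimpleRing (A ⧸ Ring.jacobson A)) (hj : rad h ≤ Ring.jacobson R) :
    Ring.jacobson R ≤ rad h := fun r hr => by
  by_contra nr
  obtain ⟨n, hn, s, hs, l⟩ := lead h _ hj hr nr
  obtain ⟨a, ha⟩ : ∃ a, a = (φ ^ (-n)) (c r n) := ⟨_, rfl⟩
  rw [← ha] at l
  obtain ⟨b, hb⟩ := regular (Ideal.Quotient.mk (Ring.jacobson A) a)
  obtain ⟨b, rfl⟩ := Ideal.Quotient.mk_surjective b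
  obtain ⟨z, hz⟩ := (geom h (mul_lo h l (mo_lo h b 0) le_rfl)).exists_left_inv
  have e : (1 + (s - io h a) * io h b) * io h a = io h (a - a * b * a) + s * (io h b * io h a) := by
    rw [map_sub, map_mul, map_mul]
    noncomm_ring
  have m : io h a ∈ Ring.jacobson R := by
    rw [← one_mul (io h a), ← hz, mul_assoc]
    refine (Ring.jacobson R).mul_mem_left _ ?_
    exact e ▸ add_mem (hj (mo_rad h (Ideal.Quotient.eq.1 hb.symm) 0))
      ((Ring.jacobson R).mul_mem_right _ hs)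
  have := aut_mem (φ ^ n) (io_jac h m)
  rw [ha] at this
  exact hn (by
    have e : (φ ^ n) ((φ ^ (-n)) (c r n)) = (φ ^ n * φ ^ (-n)) (c r n) := rfl
    rwa [e, ← zpow_add, add_neg_cancel, zpow_zero] at this)

end laurent

theorem semi_of_idem {S : Type} [Ring S]
    (H : ∀ I : Ideal S, ∃ f, f * f = f ∧ I = Ideal.span {f}) : IsSemisimpleRing S where
  exists_isCompl I := by
    obtain ⟨f, hf, rfl⟩ := H I
    refine ⟨Ideal.span {1 - f}, Submodule.disjoint_def.2 fun x h1 h2 => ?_,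
      codisjoint_iff.2 ((Ideal.eq_top_iff_one _).2 (Submodule.mem_sup.2
        ⟨f, Ideal.mem_span_singleton_self _, 1 - f, Ideal.mem_span_singleton_self _,
          add_sub_cancel _ _⟩))⟩
    obtain ⟨a, ha⟩ := Ideal.mem_span_singleton'.1 h1
    obtain ⟨b, hb⟩ := Ideal.mem_span_singleton'.1 h2
    have : x * f = x := by rw [← ha, mul_assoc, hf]
    rw [← this, ← hb, mul_assoc, sub_mul, one_mul, hf, sub_self, mul_zero]

section laurent
variable {A R : Type} [Ring A] [Ring R] {φ : RingAut A} {c : R → ℤ → A}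
  (h : IsSkewLaurentRing φ c)

theorem aut_mem' (n : ℤ) {a : A} (ha : (φ ^ (-n)) a ∈ Ring.jacobson A) : a ∈ Ring.jacobson A := by
  have := aut_mem (φ ^ n) ha
  have e : (φ ^ n) ((φ ^ (-n)) a) = (φ ^ n * φ ^ (-n)) a := rfl
  rwa [e, ← zpow_add, add_neg_cancel, zpow_zero] at this

/-- left ideals modulo the radical are generated by conjugates of constant idempotents -/
theorem gen (hA : IsSemisimpleRing (A ⧸ Ring.jacobson A)) (L : Ideal R) (hL : rad h ≤ L) :
    ∃ e : A, e * e - e ∈ Ring.jacobson A ∧ ∃ u : Rˣ, io h e * u ∈ L ∧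
      ∀ y ∈ L, y - y * ↑u⁻¹ * (io h e * u) ∈ rad h := by
  let m := Ideal.Quotient.mk (Ring.jacobson A)
  let Λ : Ideal A :=
    { carrier := {a | ∃ s ∈ L, s - io h a ∈ lo h 1}
      add_mem' := by
        rintro a b ⟨s, hs, ha⟩ ⟨t, ht, hb⟩
        exact ⟨s + t, add_mem hs ht, by rw [map_add, add_sub_add_comm]; exact add_mem ha hb⟩
      zero_mem' := ⟨0, zero_mem _, by rw [map_zero, sub_self]; exact zero_mem _⟩
      smul_mem' := by
        rintro b a ⟨s, hs, ha⟩
        exact ⟨io h b * s, L.mul_mem_left _ hs, by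
          rw [smul_eq_mul, map_mul, ← mul_sub]; exact mul_lo h (mo_lo h b 0) ha le_rfl⟩ }
  obtain ⟨ε, hε, eq⟩ := IsSemisimpleRing.ideal_eq_span_idempotent (Λ.map m)
  have k : ∀ t ∈ Λ, m t * ε = m t := fun t ht => by
    obtain ⟨a, ha⟩ := Ideal.mem_span_singleton'.1 (eq ▸ Ideal.mem_map_of_mem m ht)
    rw [← ha, mul_assoc, hε.eq]
  obtain ⟨e, ⟨s, hs, l⟩, rfl⟩ := (Ideal.mem_map_iff_of_surjective m
    Ideal.Quotient.mk_surjective).1 (eq ▸ Ideal.mem_span_singleton_self ε)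
  have he : e * e - e ∈ Ring.jacobson A := Ideal.Quotient.eq.1 hε.eq
  obtain ⟨u, hu⟩ := geom h l
  have eu : io h e * u ∈ L := by
    have : io h e * u = io h e * s - io h (e * e - e) := by
      rw [hu, map_sub, map_mul]; noncomm_ring
    rw [this]
    exact sub_mem (L.mul_mem_left _ hs) (hL (mo_rad h he 0))
  refine ⟨e, he, u, eu, fun y hy => ?_⟩
  have e1 : y * ↑u⁻¹ * io h (1 - e) * u = y - y * ↑u⁻¹ * (io h e * u) := by
    rw [map_sub, map_one, mul_sub, sub_mul, mul_one, Units.inv_mul_cancel_right,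
      mul_assoc (y * ↑u⁻¹)]
  rw [← e1]
  refine (rad h).mul_mem_right _ (by_contra fun nr => ?_)
  obtain ⟨n, hn, t, ht, lt⟩ := lead h (Submodule.comap (LinearMap.toSpanSingleton R R u) L)
    (fun r hr => hL ((rad h).mul_mem_right _ hr))
    (show _ * (u : R) ∈ L from e1 ▸ sub_mem hy (L.mul_mem_left _ eu)) nr
  obtain ⟨a, ha⟩ : ∃ a, a = (φ ^ (-n)) (c (y * ↑u⁻¹ * io h (1 - e)) n) := ⟨_, rfl⟩
  rw [← ha] at lt
  have m1 : a ∈ Λ := ⟨t * u, ht, by
    rw [hu, show t * (1 + (s - io h e)) - io h a =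
      (t - io h a) * (1 + (s - io h e)) + io h a * (s - io h e) by noncomm_ring]
    exact add_mem (mul_lo h lt (add_mem (one_lo h) (lo_mono h l zero_le_one)) le_rfl)
      (mul_lo h (mo_lo h a 0) l le_rfl)⟩
  have m2 : a = (φ ^ (-n)) (c (y * ↑u⁻¹) n) * (1 - e) := by
    rw [ha]
    change (φ ^ (-n)) (c (_ * mo h _ 0) n) = _
    rw [c_mul_mo h, map_mul, sub_zero]
    congr 1
    change (φ ^ (-n) * φ ^ n) _ = _
    rw [← zpow_add, neg_add_cancel, zpow_zero]
    rfl
  refine hn (aut_mem' (φ := φ) n ?_)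
  rw [← ha, ← Ideal.Quotient.eq_zero_iff_mem]
  change m a = 0
  rw [← k a m1, m2, map_mul, map_sub, map_one, mul_assoc, sub_mul, one_mul, hε.eq, sub_self,
    mul_zero]

theorem gen' (hA : IsSemisimpleRing (A ⧸ Ring.jacobson A)) (hj : rad h ≤ Ring.jacobson R)
    (I : Ideal (R ⧸ Ring.jacobson R)) : ∃ e : A, e * e - e ∈ Ring.jacobson A ∧ ∃ u : Rˣ,
      I = Ideal.span {Ideal.Quotient.mk _ (↑u⁻¹ * io h e * u)} := by
  let m := Ideal.Quotient.mk (Ring.jacobson R)
  obtain ⟨e, he, u, h1, h2⟩ := gen h hA (I.comap m) fun r hr => by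
    rw [Ideal.mem_comap, Ideal.Quotient.eq_zero_iff_mem.2 (hj hr)]
    exact zero_mem _
  refine ⟨e, he, u, le_antisymm (fun y hy => ?_) ((Ideal.span_singleton_le_iff_mem _).2 ?_)⟩
  · obtain ⟨y, rfl⟩ := Ideal.Quotient.mk_surjective y
    exact Ideal.mem_span_singleton'.2 ⟨m y, Eq.trans (by rw [← map_mul]; simp only [mul_assoc]; rfl)
      (Ideal.Quotient.eq.2 (hj (h2 y hy))).symm⟩
  · rw [mul_assoc]
    exact (I.comap m).mul_mem_left _ h1

theorem gen_idem {e : A} (he : e * e - e ∈ Ring.jacobson A) (hj : rad h ≤ Ring.jacobson R)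
    (u : Rˣ) : IsIdempotentElem (Ideal.Quotient.mk (Ring.jacobson R) (↑u⁻¹ * io h e * u)) := by
  refine Ideal.Quotient.eq.2 (hj ?_)
  rw [show ↑u⁻¹ * io h e * u * (↑u⁻¹ * io h e * u) - ↑u⁻¹ * io h e * u =
    ↑u⁻¹ * io h (e * e - e) * u by
      rw [map_sub, map_mul, mul_sub, sub_mul]
      simp only [mul_assoc, Units.mul_inv_cancel_left]]
  exact (rad h).mul_mem_right _ ((rad h).mul_mem_left _ (mo_rad h he 0))

end laurent

end Pool.Agent.MP_669787_al.Sp
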