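import Pool.Agent.MP_669787_al.Defs

namespace Pool.Agent.MP_669787_al

open Function

lemma hahn_coeff_mul {B : Type} [Ring B] (x y : HahnSeries ℤ B) (n : ℤ) :
    (x * y).coeff n = ∑ᶠ i : ℤ, x.coeff i * y.coeff (n - i) := by
  classical
  rw [HahnSeries.coeff_mul, finsum_eq_sum_of_support_subset
    (s := (Finset.antidiagonal x.isPWO_support y.isPWO_support n).image Prod.fst)]
  · rw [Finset.sum_image]
    · refine Finset.sum_congr rfl fun ij hij => ?_
      rw [Finset.mem_antidiagonal] at hij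
      rw [← hij.2.2]
      simp
    · intro a ha b hb hab
      rw [Finset.mem_coe, Finset.mem_antidiagonal] at ha hb
      have h1 := ha.2.2
      have h2 := hb.2.2
      have hab' : a.1 = b.1 := hab
      exact Prod.ext hab' (by omega)
  · intro i hi
    rw [mem_support] at hi
    simp only [Finset.coe_image, Set.mem_image, Finset.mem_coe, Finset.mem_antidiagonal]
    refine ⟨(i, n - i), ⟨left_ne_zero_of_mul hi, right_ne_zero_of_mul hi, by simp⟩, rfl⟩

lemma hahn_bdd {B : Type} [Zero B] (x : HahnSeries ℤ B) : ∃ n : ℤ, ∀ i < n, x.coeff i = 0 :=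
  ⟨x.order, fun _ hi => HahnSeries.coeff_eq_zero_of_lt_order hi⟩

variable {A : Type} [Ring A] (φ : RingAut A)

/-- The additive endomorphism `b ↦ a φ^n(b)`. -/
def tw (n : ℤ) : A →+ AddMonoid.End A where
  toFun a := (AddMonoidHom.mulLeft a).comp (φ ^ n).toAddMonoidHom
  map_zero' := AddMonoidHom.ext fun b => zero_mul ((φ ^ n) b)
  map_add' a a' := AddMonoidHom.ext fun b => add_mul a a' ((φ ^ n) b)

lemma tw_apply (n : ℤ) (a b : A) : tw φ n a b = a * (φ ^ n) b := rfl

lemma tw_one (n : ℤ) (a : A) : tw φ n a 1 = a := by simp [tw_apply]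

lemma tw_injective (n : ℤ) : Injective (tw φ n) := fun a b h => by
  rw [← tw_one φ n a, h, tw_one]

lemma tw_mul (p q : ℤ) (a b : A) : tw φ p a * tw φ q b = tw φ (p + q) (a * (φ ^ p) b) := by
  refine AddMonoidHom.ext fun z => ?_
  change a * (φ ^ p) (b * (φ ^ q) z) = a * (φ ^ p) b * (φ ^ (p + q)) z
  rw [zpow_add, map_mul, mul_assoc]
  rfl

lemma coeff_mul_tw {x y : HahnSeries ℤ (AddMonoid.End A)} {a b : ℤ → A}
    (hx : ∀ n, x.coeff n = tw φ n (a n)) (hy : ∀ n, y.coeff n = tw φ n (b n)) (n : ℤ) :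
    (x * y).coeff n = tw φ n (∑ᶠ i : ℤ, a i * (φ ^ i) (b (n - i))) := by
  rw [hahn_coeff_mul, (tw φ n).map_finsum_of_injective (tw_injective φ n)]
  refine finsum_congr fun i => ?_
  rw [hx, hy, tw_mul, add_sub_cancel]

/-- The skew Laurent series ring, inside the Laurent series over the endomorphism ring. -/
def skewSub : Subring (HahnSeries ℤ (AddMonoid.End A)) where
  carrier := {x | ∃ a : ℤ → A, ∀ n, x.coeff n = tw φ n (a n)}
  mul_mem' := by
    rintro x y ⟨a, ha⟩ ⟨b, hb⟩
    exact ⟨_, coeff_mul_tw φ ha hb⟩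
  one_mem' := by
    refine ⟨Pi.single 0 1, fun n => ?_⟩
    by_cases h : n = 0
    · subst h
      rw [HahnSeries.coeff_one, if_pos rfl, Pi.single_eq_same]
      refine AddMonoidHom.ext fun z => ?_
      change z = 1 * (φ ^ (0 : ℤ)) z
      simp
    · simp [h]
  add_mem' := by
    rintro x y ⟨a, ha⟩ ⟨b, hb⟩
    exact ⟨a + b, fun n => by simp [ha, hb]⟩
  zero_mem' := ⟨0, fun n => by simp⟩
  neg_mem' := by
    rintro x ⟨a, ha⟩
    exact ⟨-a, fun n => by simp [ha]⟩

lemma skew_coeff (x : skewSub φ) (n : ℤ) : x.1.coeff n = tw φ n (x.1.coeff n 1) := by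
  obtain ⟨a, ha⟩ := x.2
  rw [ha, tw_one]

theorem exists_skewLaurent :
    ∃ (R : Type) (_ : Ring R) (c : R → ℤ → A), IsSkewLaurentRing φ c := by
  refine ⟨skewSub φ, inferInstance, fun x n => x.1.coeff n 1, ?_, ?_, ?_, ?_⟩
  · intro x y h
    refine Subtype.ext (HahnSeries.ext (funext fun n => ?_))
    rw [skew_coeff φ x, skew_coeff φ y]
    exact congrArg _ (congrFun h n)
  · intro f
    constructor
    · rintro ⟨x, rfl⟩
      obtain ⟨n, hn⟩ := hahn_bdd x.1
      exact ⟨n, fun i hi => by simp [hn i hi]⟩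
    · rintro ⟨n, hn⟩
      have hb : BddBelow (support fun i => tw φ i (f i)) := by
        refine ⟨n, fun i hi => ?_⟩
        by_contra h
        exact hi (by simp [hn i (not_le.mp h)])
      refine ⟨⟨HahnSeries.ofSuppBddBelow _ hb, f, fun _ => rfl⟩, funext fun i => ?_⟩
      exact tw_one φ i (f i)
  · intro r s i
    change (r.1 + s.1).coeff i 1 = _
    rw [HahnSeries.coeff_add]
    rfl
  · intro r s n
    have := coeff_mul_tw φ (skew_coeff φ r) (skew_coeff φ s) n
    change (r.1 * s.1).coeff n 1 = _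
    rw [this, tw_one]

namespace IsSkewLaurentRing

variable {φ} {R : Type} [Ring R] {c : R → ℤ → A} (h : IsSkewLaurentRing φ c)
include h

/-- The coefficient map as an additive homomorphism. -/
def coeffHom (i : ℤ) : R →+ A := AddMonoidHom.mk' (fun r => c r i) fun r s => h.2.2.1 r s i

lemma c_zero (i : ℤ) : c 0 i = 0 := (h.coeffHom i).map_zero

lemma c_sub (r s : R) (i : ℤ) : c (r - s) i = c r i - c s i := (h.coeffHom i).map_sub r s

lemma c_neg (r : R) (i : ℤ) : c (-r) i = -c r i := (h.coeffHom i).map_neg r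

lemma c_sum (f : ℕ → R) (t : Finset ℕ) (i : ℤ) : c (∑ m ∈ t, f m) i = ∑ m ∈ t, c (f m) i :=
  map_sum (h.coeffHom i) f t

lemma bdd (r : R) : ∃ n : ℤ, ∀ i < n, c r i = 0 := (h.2.1 _).mp ⟨r, rfl⟩

lemma c_one : c 1 = Pi.single 0 1 := by
  obtain ⟨u, hu⟩ := (h.2.1 (Pi.single 0 1)).mpr ⟨0, fun i hi => by simp [hi.ne]⟩
  have : u * 1 = 1 := by
    refine h.1 (funext fun n => ?_)
    rw [h.2.2.2, finsum_eq_single _ 0]
    · simp [hu]
    · intro i hi
      simp [hu, hi]
  rw [mul_one] at this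
  rw [← this, hu]

end IsSkewLaurentRing

end Pool.Agent.MP_669787_al
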